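import Pool.Agent.K4H4.GL.Fin2
import Pool.Agent.K4H4.GL.Half
import Pool.Agent.R320.KL.Gmo

/-!
# The distribution of the Frobenius traces of almost all superelliptic curves `y ^ l = F x` over a number field, up to `O(1 / √(deg F))`

The coefficients of `F` are arbitrary integers of the number field in which a few digits of the coordinates have been changed. The
distribution function of the normalised traces over every sparse set of primes is a normal one up to a term `22000 / √(deg F)`, which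
does not depend on the degree `l`, the number field or the set of primes.
-/

set_option autoImplicit false

namespace Pool.Agent.K4H4.Old.SuperellipticNormalLaw

open Finset IsDedekindDomain NumberField Polynomial

variable {K : Type} [Field K] [NumberField K]

/-- The number of the `l`-th roots of unity in the residue field of the prime `𝔭`. -/
noncomputable def roots (l : ℕ) (𝔭 : HeightOneSpectrum (𝓞 K)) : ℕ := Nat.card {y : 𝓞 K ⧸ 𝔭.asIdeal // y ^ l = 1}

/-- The number of the points of the affine curve `y ^ l = F x` modulo `𝔭`. -/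
noncomputable def points (l : ℕ) (F : (𝓞 K)[X]) (𝔭 : HeightOneSpectrum (𝓞 K)) : ℕ :=
  Nat.card {z : (𝓞 K ⧸ 𝔭.asIdeal) × (𝓞 K ⧸ 𝔭.asIdeal) // z.2 ^ l = (F.map (Ideal.Quotient.mk 𝔭.asIdeal)).eval z.1}

/-- The normalised trace of the Frobenius at the prime `𝔭` for the curve `y ^ l = F x`: `(q - N) / √(q (e - 1))`, where `q` is the
norm of `𝔭`, `N` the number of the affine points modulo `𝔭` and `e` the number of the `l`-th roots of unity modulo `𝔭`. If the degree of
`F` is prime to `l` and `𝔭` is good, then `q - N` is the trace of the Frobenius on the first cohomology group. -/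
noncomputable def trace (l : ℕ) (F : (𝓞 K)[X]) (𝔭 : HeightOneSpectrum (𝓞 K)) : ℝ :=
  ((Ideal.absNorm 𝔭.asIdeal : ℝ) - points l F 𝔭) / Real.sqrt (Ideal.absNorm 𝔭.asIdeal * ((roots l 𝔭 : ℝ) - 1))

/-- The prime `𝔭` does not divide `l`, `F` is separable modulo `𝔭` (so that the curve `y ^ l = F x` has good reduction), and the residue
field contains an `l`-th root of unity different from `1` (otherwise `q - N` is `0`). -/
def Good (l : ℕ) (F : (𝓞 K)[X]) (𝔭 : HeightOneSpectrum (𝓞 K)) : Prop :=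
  (l : 𝓞 K) ∉ 𝔭.asIdeal ∧ 2 ≤ roots l 𝔭 ∧ (F.map (Ideal.Quotient.mk 𝔭.asIdeal)).Separable

/-- The primes of norm at most `n`. -/
noncomputable def primes (K : Type) [Field K] [NumberField K] (n : ℕ) : Finset (HeightOneSpectrum (𝓞 K)) :=
  (Ring.HasFiniteQuotients.finite_absNorm_heightOneSpectrum_le (R := 𝓞 K) n).toFinset

/-- The polynomial `X ^ d + ∑ i, (γ i + ∑ t, m (i, t) ω t) X ^ i`; the pairs `(i, t)` are numbered by `finProdFinEquiv`. -/
noncomputable def poly (d : ℕ) {h : ℕ} (ω : Module.Basis (Fin h) ℤ (𝓞 K)) (γ : Fin d → 𝓞 K)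
    (m : Fin (d * h) → ℕ) : (𝓞 K)[X] :=
  X ^ d + ∑ i : Fin d, C (γ i + ∑ t, m (finProdFinEquiv (i, t)) • ω t) * X ^ (i : ℕ)

open Classical in
/-- For all the sets `S` of primes in `W` and all real `x` the number of the good primes in `S` of norm at most `n` whose normalised
trace is at most `x` differs from the number of all the good primes in `S` of norm at most `n` times the standard normal distribution
function at `x` at most by `22000 / √d` times the latter number plus `(max 1 #S) ^ (1 / 2) n ^ δ`. -/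
def NearlyNormal (d l : ℕ) (δ : ℝ) (W : Finset (Set (HeightOneSpectrum (𝓞 K)))) (n : ℕ) (F : (𝓞 K)[X]) : Prop :=
  ∀ S ∈ W, ∀ x : ℝ,
    |(((primes K n).filter (fun 𝔭 => 𝔭 ∈ S ∧ Good l F 𝔭 ∧ trace l F 𝔭 ≤ x)).card : ℝ) -
      ((primes K n).filter (fun 𝔭 => 𝔭 ∈ S ∧ Good l F 𝔭)).card * (ProbabilityTheory.gaussianReal 0 1).real (Set.Iic x)| ≤
      22000 / Real.sqrt d * ((primes K n).filter (fun 𝔭 => 𝔭 ∈ S ∧ Good l F 𝔭)).card +
      Real.sqrt (max 1 (((primes K n).filter (fun 𝔭 => 𝔭 ∈ S)).card : ℝ)) * (n : ℝ) ^ δ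

/-- The digit number `i` (counted from the right, beginning with `0`) of `n` in base `b`. -/
def digit (b i n : ℕ) : ℕ := n / b ^ i % b

/-- The number which arises from the number `N` with at most `M` digits in base `b`, if for every `i ∈ S`
the digit number `i` is replaced by `f i`. -/
def change (b M N : ℕ) (f : ℕ → ℕ) (S : Finset ℕ) : ℕ :=
  ∑ i ∈ range M, (if i ∈ S then f i else digit b i N) * b ^ i

open Classical in
/-- The number of the choices of `r l` of `M l` positions for all `l < d` for which the vector of the numbers obtained by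
changing the digits of the `N l` at the chosen positions (according to `f l`) does not have the property `E`. -/
noncomputable def exceptions {d : ℕ} (b : ℕ) (M r N : Fin d → ℕ) (f : Fin d → ℕ → ℕ) (E : (Fin d → ℕ) → Prop) : ℕ :=
  ((Fintype.piFinset (fun l => powersetCard (r l) (range (M l)))).filter
    (fun S => ¬ E (fun l => change b (M l) (N l) (f l) (S l)))).card

lemma exc_eq {d : ℕ} (b : ℕ) (M r N : Fin d → ℕ) (f : Fin d → ℕ → ℕ) (E : (Fin d → ℕ) → Prop) :
    exceptions b M r N f E = Pool.Agent.Y57.FD.exceptions b M r N f E := rfl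

lemma primes_eq (n : ℕ) : primes K n = Pool.Agent.K4H4.ST.NF.primes K n := by
  ext 𝔭
  rw [Pool.Agent.K4H4.ST.NF.mem_primes]
  unfold primes
  rw [Set.Finite.mem_toFinset]
  rfl

lemma int_eq (n : ℕ) : ∫ z, z ^ n ∂(ProbabilityTheory.gaussianReal 0 1) = Pool.Agent.Y57.FD.Mom.normal n := by
  unfold Pool.Agent.Y57.FD.Mom.normal
  split_ifs with h
  · obtain ⟨a, ha⟩ := h
    rw [show n = 2 * a by omega]
    exact Pool.Agent.R320.KL.gm_even a
  · exact Pool.Agent.R320.KL.gm_odd n (Nat.not_even_iff_odd.1 h) 1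

open Classical in
lemma term_eq (d l n : ℕ) {h : ℕ} (ω : Module.Basis (Fin h) ℤ (𝓞 K)) (γ : Fin d → 𝓞 K) (m : Fin (d * h) → ℕ)
    (𝔭 : HeightOneSpectrum (𝓞 K)) :
    (if Good l (poly d ω γ m) 𝔭 then trace l (poly d ω γ m) 𝔭 ^ n - Pool.Agent.Y57.FD.Mom.normal n else 0) =
    Pool.Agent.K4H4.GL.HsP d l n 𝔭 (fun i => Ideal.Quotient.mk 𝔭.asIdeal (γ i + Pool.Agent.K4H4.ST.NF.cf ω m i)) := by
  letI : Field (𝓞 K ⧸ 𝔭.asIdeal) := Ideal.Quotient.field 𝔭.asIdeal
  have hpoly : (poly d ω γ m).map (Ideal.Quotient.mk 𝔭.asIdeal) =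
      Pool.Agent.K4H4.ST.pl d (fun i => Ideal.Quotient.mk 𝔭.asIdeal (γ i + Pool.Agent.K4H4.ST.NF.cf ω m i)) := by
    unfold poly Pool.Agent.K4H4.ST.pl Pool.Agent.K4H4.ST.NF.cf
    rw [Polynomial.map_add, Polynomial.map_pow, Polynomial.map_X, Polynomial.map_sum]
    congr 1
    apply sum_congr rfl
    intro i _
    rw [Polynomial.map_mul, Polynomial.map_C, Polynomial.map_pow, Polynomial.map_X]
  have h2 : (l : 𝓞 K) ∉ 𝔭.asIdeal ↔ (l : 𝓞 K ⧸ 𝔭.asIdeal) ≠ 0 := by
    rw [← Ideal.Quotient.eq_zero_iff_mem, map_natCast]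
  have htr : trace l (poly d ω γ m) 𝔭 = Pool.Agent.K4H4.GL.xk (𝓞 K ⧸ 𝔭.asIdeal) l
      (Pool.Agent.K4H4.ST.pl d (fun i => Ideal.Quotient.mk 𝔭.asIdeal (γ i + Pool.Agent.K4H4.ST.NF.cf ω m i))) := by
    unfold trace points roots Pool.Agent.K4H4.GL.xk
    rw [Pool.Agent.K4H4.ST.NF.card_quot, ← hpoly]
  unfold Pool.Agent.K4H4.GL.HsP Pool.Agent.K4H4.GL.Hs
  have hgood : Good l (poly d ω γ m) 𝔭 ↔ (l : 𝓞 K ⧸ 𝔭.asIdeal) ≠ 0 ∧ 2 ≤ Nat.card {y : 𝓞 K ⧸ 𝔭.asIdeal // y ^ l = 1} ∧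
      (Pool.Agent.K4H4.ST.pl d (fun i => Ideal.Quotient.mk 𝔭.asIdeal (γ i + Pool.Agent.K4H4.ST.NF.cf ω m i))).Separable := by
    unfold Good
    rw [h2, hpoly]
    rfl
  by_cases hg : Good l (poly d ω γ m) 𝔭
  · rw [if_pos hg, if_pos (hgood.1 hg), htr]
  · rw [if_neg hg, if_neg (fun h => hg (hgood.2 h))]

/-- Let `K` be a number field, `l ≥ 2`, `d ≥ 1` prime to `l`, `ω` a basis of the ring of integers of `K`, `b ≥ 2`, `δ > 0` and
`A, B ≥ 0`. There are `c > 0` and `y₀` such that for all integers `r l`, `M l`, `y` with `2 r l ≤ M l` and `y ≥ y₀` the following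
holds.

Let `γ i` be arbitrary integers of `K` and `0 ≤ N l < b ^ M l` arbitrary integers, prescribe for every position `j` a digit `f l j`
different from the digit of `N l` in base `b`, and let for every `n` a family `W n` of at most `n ^ B` arbitrary sets of primes
be given. If one chooses `r l` of the `M l` positions and replaces the digits of `N l` at these positions, then for all but at most a
proportion `1 / y ^ A` of the choices the curve `Y ^ l = X ^ d + ∑ i (γ i + ∑ t m (i, t) ω t) X ^ i` over `K` with the numbers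
`m` obtained has the following property: for all integers `n` with `y ≤ n ≤ exp (c r l)` for all `l`, all sets `S ∈ W n` and all real
`x`, the number of the good primes in `S` of norm at most `n` with normalised trace at most `x` is the number of the good primes in `S`
of norm at most `n` times `(Φ(x) + O(22000 / √d))`, where `Φ` is the standard normal distribution function, with an error of at most
`(max 1 #S) ^ (1 / 2) n ^ δ`. -/
theorem result (K : Type) [Field K] [NumberField K] (l : ℕ) (hl : 2 ≤ l) (d : ℕ) (hd : 1 ≤ d) (hld : Nat.Coprime l d)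
    (h : ℕ) (ω : Module.Basis (Fin h) ℤ (𝓞 K)) (b : ℕ) (hb : 2 ≤ b) (δ : ℝ) (hδ : 0 < δ) (A B : ℕ) :
    ∃ c : ℝ, 0 < c ∧ ∃ y₀ : ℕ,
    ∀ (M r : Fin (d * h) → ℕ) (y : ℕ), (∀ l, 2 * r l ≤ M l) → y₀ ≤ y →
    ∀ N : Fin (d * h) → ℕ, (∀ l, N l < b ^ M l) →
    ∀ f : Fin (d * h) → ℕ → ℕ, (∀ l j, f l j < b ∧ f l j ≠ digit b j (N l)) →
    ∀ γ : Fin d → 𝓞 K,
    ∀ W : ℕ → Finset (Set (HeightOneSpectrum (𝓞 K))), (∀ n, (W n).card ≤ n ^ B) →
    (exceptions b M r N f (fun m => ∀ n : ℕ, y ≤ n → (∀ l, (n : ℝ) ≤ Real.exp (c * r l)) →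
      NearlyNormal d l δ (W n) n (poly d ω γ m)) : ℝ) ≤
      1 / (y : ℝ) ^ A * ∏ l, ((M l).choose (r l) : ℝ) := by
  classical
  have hrank : Module.finrank ℤ (𝓞 K) = h := by
    rw [Module.finrank_eq_card_basis ω, Fintype.card_fin]
  -- the number of the moments
  obtain ⟨q, hq1, hq2, hq3⟩ : ∃ q : ℕ, 1 ≤ q ∧ (2 ≤ d → 2 * q ≤ d) ∧ (2 ≤ d → d ≤ 3 * q) := by
    refine ⟨max 1 (d / 2), le_max_left _ _, fun h => ?_, fun h => ?_⟩
    · rcases le_total 1 (d / 2) with h1 | h1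
      · rw [max_eq_right h1]; omega
      · rw [max_eq_left h1]; omega
    · rcases le_total 1 (d / 2) with h1 | h1
      · rw [max_eq_right h1]; omega
      · rw [max_eq_left h1]; omega
  obtain ⟨Cm, hCm0, hCm⟩ := Pool.Agent.K4H4.GL.half_line q hq1
  have hch1 : ∀ n : ℕ, ∃ C : ℝ, 0 ≤ C ∧ (n ≤ d → ∀ 𝔭 : HeightOneSpectrum (𝓞 K),
      |Pool.Agent.K4H4.ST.NF.avg (Pool.Agent.K4H4.GL.HsP d l n 𝔭)| ≤ C / Real.sqrt (Ideal.absNorm 𝔭.asIdeal)) := by
    intro n
    by_cases hn : n ≤ d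
    · obtain ⟨C, hC0, hC⟩ := Pool.Agent.K4H4.GL.HsP_mean l d n hl hd hld hn h
      exact ⟨C, hC0, fun _ => hC K hrank⟩
    · exact ⟨0, le_rfl, fun h => absurd h hn⟩
  choose C hC0 hC using hch1
  have hch2 : ∀ n : ℕ, ∃ Bn : ℝ, 0 ≤ Bn ∧ ∀ 𝔭 : HeightOneSpectrum (𝓞 K), ∀ u, |Pool.Agent.K4H4.GL.HsP d l n 𝔭 u| ≤ Bn := by
    intro n
    obtain ⟨Bn, hB0, hB⟩ := Pool.Agent.K4H4.GL.HsP_bound l d n hl hld
    exact ⟨Bn, hB0, hB K⟩
  choose Bn hBn0 hBn using hch2
  obtain ⟨Bd, hBd⟩ : ∃ Bd : ℝ, Bd = 1 + ∑ n ∈ range (d + 1), Bn n := ⟨_, rfl⟩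
  have hBd1 : 1 ≤ Bd := by
    rw [hBd]
    have : 0 ≤ ∑ n ∈ range (d + 1), Bn n := sum_nonneg fun n _ => hBn0 n
    linarith
  obtain ⟨C₀, hC₀⟩ : ∃ C₀ : ℝ, C₀ = ∑ n ∈ range (d + 1), C n := ⟨_, rfl⟩
  have hC₀0 : 0 ≤ C₀ := by
    rw [hC₀]
    exact sum_nonneg fun n _ => hC0 n
  obtain ⟨c, hc, y₀, hmain⟩ := Pool.Agent.K4H4.ST.NF.engine K h ω d hd b hb (δ / 2) (by positivity) A (B + (d + 1)) Bd C₀ hBd1 hC₀0
  obtain ⟨y₁, hy₁⟩ : ∃ y₁ : ℕ, ∀ n : ℕ, y₁ ≤ n → Cm ≤ (n : ℝ) ^ (δ / 2) := by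
    have h1 := (tendsto_rpow_atTop (by positivity : 0 < δ / 2)).comp tendsto_natCast_atTop_atTop
    have h2 := h1.eventually_ge_atTop Cm
    rw [Filter.eventually_atTop] at h2
    exact h2
  refine ⟨c, hc, y₀ + y₁ + 2, fun M r y hrM hy N hN f hf γ W hWc => ?_⟩
  rw [exc_eq]
  refine hmain M r y hrM (by omega) N hN f hf γ (Set (HeightOneSpectrum (𝓞 K)) × ℕ) (fun n => W n ×ˢ range (d + 1)) ?_
    (fun x 𝔭 => if 𝔭 ∈ x.1 then 1 else 0) ?_ (fun x 𝔭 u => if x.2 ≤ d then Pool.Agent.K4H4.GL.HsP d l x.2 𝔭 u else 0) ?_ ?_ _ ?_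
  · intro n hn
    rw [card_product, card_range, pow_add]
    apply Nat.mul_le_mul (hWc n)
    calc d + 1 ≤ 2 ^ (d + 1) := Nat.lt_two_pow_self.le
      _ ≤ n ^ (d + 1) := Nat.pow_le_pow_left hn _
  · intro n x _ 𝔭
    show |(if 𝔭 ∈ x.1 then (1 : ℝ) else 0)| ≤ 1
    split_ifs <;> norm_num
  · intro x 𝔭 u
    show |(if x.2 ≤ d then Pool.Agent.K4H4.GL.HsP d l x.2 𝔭 u else 0)| ≤ Bd
    split_ifs with hx
    · refine (hBn x.2 𝔭 u).trans ?_
      rw [hBd]
      have := single_le_sum (f := Bn) (fun n _ => hBn0 n) (mem_range.2 (by omega : x.2 < d + 1))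
      linarith
    · rw [abs_zero]
      linarith
  · intro n x hx 𝔭
    rw [mem_product, mem_range] at hx
    have h1 : (fun u => if x.2 ≤ d then Pool.Agent.K4H4.GL.HsP d l x.2 𝔭 u else 0) = Pool.Agent.K4H4.GL.HsP d l x.2 𝔭 := by
      funext u
      rw [if_pos (by omega)]
    show |Pool.Agent.K4H4.ST.NF.avg (fun u => if x.2 ≤ d then Pool.Agent.K4H4.GL.HsP d l x.2 𝔭 u else 0)| ≤ _
    rw [h1]
    refine (hC x.2 (by omega) 𝔭).trans ?_
    apply div_le_div_of_nonneg_right _ (Real.sqrt_nonneg _)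
    rw [hC₀]
    exact single_le_sum (f := C) (fun n _ => hC0 n) (mem_range.2 hx.2)
  · intro m hm n hyn hnr S hS x
    obtain ⟨F, hF⟩ : ∃ F, F = poly d ω γ m := ⟨_, rfl⟩
    rw [← hF]
    obtain ⟨s, hs⟩ : ∃ s : Finset (HeightOneSpectrum (𝓞 K)), s = (primes K n).filter (fun 𝔭 => 𝔭 ∈ S ∧ Good l F 𝔭) := ⟨_, rfl⟩
    have hs1 : (primes K n).filter (fun 𝔭 => 𝔭 ∈ S ∧ Good l F 𝔭 ∧ trace l F 𝔭 ≤ x) = s.filter (fun 𝔭 => trace l F 𝔭 ≤ x) := by
      rw [hs, filter_filter]
      apply filter_congr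
      intro 𝔭 _
      tauto
    rw [hs1, ← hs]
    obtain ⟨T, hT⟩ : ∃ T : ℝ, T = Real.sqrt (max 1 (((primes K n).filter (fun 𝔭 => 𝔭 ∈ S)).card : ℝ)) := ⟨_, rfl⟩
    rw [← hT]
    have hT0 : 0 ≤ T := by rw [hT]; exact Real.sqrt_nonneg _
    have hn0 : (0 : ℝ) < n := by exact_mod_cast (by omega : 0 < n)
    have hsc : (0 : ℝ) ≤ s.card := Nat.cast_nonneg _
    have hd0 : (0 : ℝ) < d := by exact_mod_cast hd
    have hsd : 0 < Real.sqrt d := Real.sqrt_pos.2 hd0
    rcases Nat.eq_or_lt_of_le hd with hd1 | hd2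
    · -- degree one
      have h1 : |((s.filter (fun 𝔭 => trace l F 𝔭 ≤ x)).card : ℝ) - s.card * (ProbabilityTheory.gaussianReal 0 1).real (Set.Iic x)| ≤ s.card := by
        have h2 : ((s.filter (fun 𝔭 => trace l F 𝔭 ≤ x)).card : ℝ) ≤ s.card := by exact_mod_cast card_filter_le _ _
        have h3 : (0 : ℝ) ≤ ((s.filter (fun 𝔭 => trace l F 𝔭 ≤ x)).card : ℝ) := Nat.cast_nonneg _
        have h4 : (ProbabilityTheory.gaussianReal 0 1).real (Set.Iic x) ≤ 1 := MeasureTheory.measureReal_le_one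
        have h5 : 0 ≤ (ProbabilityTheory.gaussianReal 0 1).real (Set.Iic x) := MeasureTheory.measureReal_nonneg
        have h6 : (s.card : ℝ) * (ProbabilityTheory.gaussianReal 0 1).real (Set.Iic x) ≤ s.card := mul_le_of_le_one_right hsc h4
        have h7 : 0 ≤ (s.card : ℝ) * (ProbabilityTheory.gaussianReal 0 1).real (Set.Iic x) := mul_nonneg hsc h5
        rw [abs_le]
        constructor <;> linarith
      refine h1.trans ?_
      have h2 : (s.card : ℝ) ≤ 22000 / Real.sqrt d * s.card := by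
        apply le_mul_of_one_le_left hsc
        rw [← hd1, Nat.cast_one, Real.sqrt_one]
        norm_num
      have h3 : 0 ≤ T * (n : ℝ) ^ δ := by positivity
      linarith
    · have hmom : ∀ k, 1 ≤ k → k ≤ 2 * q → |Pool.Agent.K4H4.GL.Lam s (fun 𝔭 => trace l F 𝔭) (fun z => z ^ k)| ≤ T * (n : ℝ) ^ (δ / 2) := by
        intro k _ hk2
        have hkd : k ≤ d := hk2.trans (hq2 hd2)
        have h1 := hm n (by omega) (by omega) hnr (S, k) (mem_product.2 ⟨hS, mem_range.2 (by omega)⟩)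
        have h2 : ∑ 𝔭 ∈ Pool.Agent.K4H4.ST.NF.primes K n, (fun (x : Set (HeightOneSpectrum (𝓞 K)) × ℕ) 𝔭 => if 𝔭 ∈ x.1 then (1 : ℝ) else 0) (S, k) 𝔭 ^ 2 =
            (((primes K n).filter (fun 𝔭 => 𝔭 ∈ S)).card : ℝ) := by
          rw [← primes_eq, card_filter]
          push_cast
          apply sum_congr rfl
          intro 𝔭 _
          show (if 𝔭 ∈ S then (1 : ℝ) else 0) ^ 2 = _
          split_ifs <;> norm_num
        rw [h2, ← hT] at h1
        refine le_trans (le_of_eq ?_) h1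
        congr 1
        unfold Pool.Agent.K4H4.GL.Lam
        rw [int_eq, hs, sum_filter, card_filter, ← primes_eq]
        push_cast
        rw [sum_mul, ← sum_sub_distrib]
        apply sum_congr rfl
        intro 𝔭 _
        show (if 𝔭 ∈ S ∧ Good l F 𝔭 then trace l F 𝔭 ^ k else 0) - (if 𝔭 ∈ S ∧ Good l F 𝔭 then 1 else 0) * Pool.Agent.Y57.FD.Mom.normal k =
          (if 𝔭 ∈ S then (1 : ℝ) else 0) * (if k ≤ d then Pool.Agent.K4H4.GL.HsP d l k 𝔭
            (fun i => Ideal.Quotient.mk 𝔭.asIdeal (γ i + Pool.Agent.K4H4.ST.NF.cf ω m i)) else 0)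
        rw [if_pos hkd, ← term_eq d l k ω γ m 𝔭, ← hF]
        by_cases h3 : 𝔭 ∈ S
        · by_cases h4 : Good l F 𝔭
          · simp only [h3, h4, and_self, if_true, one_mul]
          · simp only [h3, h4, and_false, if_true, if_false, mul_zero, zero_mul, sub_zero]
        · simp only [h3, false_and, if_false, zero_mul, sub_zero]
      have h1 := hCm s (fun 𝔭 => trace l F 𝔭) (T * (n : ℝ) ^ (δ / 2)) (by positivity) hmom x
      refine h1.trans (add_le_add ?_ ?_)
      · apply mul_le_mul_of_nonneg_right _ hsc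
        have hq0 : (0 : ℝ) < q := by exact_mod_cast hq1
        have hsq : 0 < Real.sqrt q := Real.sqrt_pos.2 hq0
        rw [div_le_div_iff₀ hsq hsd]
        have h2 : Real.sqrt d ≤ 175 / 100 * Real.sqrt q := by
          rw [Real.sqrt_le_left (by positivity), mul_pow, Real.sq_sqrt hq0.le]
          have h3 : (d : ℝ) ≤ 3 * q := by exact_mod_cast hq3 hd2
          linarith
        linarith
      · have h2 := hy₁ n (by omega)
        have h3 : (n : ℝ) ^ δ = (n : ℝ) ^ (δ / 2) * (n : ℝ) ^ (δ / 2) := by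
          rw [← Real.rpow_add hn0]
          congr 1
          ring
        rw [h3]
        have h4 : 0 ≤ (n : ℝ) ^ (δ / 2) := by positivity
        calc Cm * (T * (n : ℝ) ^ (δ / 2)) ≤ (n : ℝ) ^ (δ / 2) * (T * (n : ℝ) ^ (δ / 2)) :=
              mul_le_mul_of_nonneg_right h2 (by positivity)
          _ = _ := by ring

end Pool.Agent.K4H4.Old.SuperellipticNormalLaw
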